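import Pool.Agent.Y920.HN.Stm

/-! HN-PRODI: the condition for full products. -/

set_option autoImplicit false

namespace Pool.Agent.Y540.HN

open Pool.Agent.Y920.HN

section

variable {Q : ℕ → Type} [∀ n, Group (Q n)] [∀ n, TopologicalSpace (Q n)]
  (F : Filt (⊤ : Subgroup (∀ n, Q n)))
  (hF : ∀ (n : ℕ) (x : (⊤ : Subgroup (∀ n, Q n))),
    x ∈ F.V n ↔ ∀ i < n, (x : ∀ n, Q n) i = 1)

include hF

theorem coset_eq (n : ℕ) (g g' : (⊤ : Subgroup (∀ n, Q n))) :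
    ((g : (⊤ : Subgroup (∀ n, Q n)) ⧸ F.V n) = (g' : (⊤ : Subgroup (∀ n, Q n)) ⧸ F.V n)) ↔
      ∀ i < n, (g : ∀ n, Q n) i = (g' : ∀ n, Q n) i := by
  rw [QuotientGroup.eq, hF]
  refine forall_congr' fun i => forall_congr' fun _ => ?_
  constructor
  · intro h
    have h1 : ((g : ∀ n, Q n) i)⁻¹ * (g' : ∀ n, Q n) i = 1 := h
    exact (inv_mul_eq_one.1 h1)
  · intro h
    show ((g : ∀ n, Q n) i)⁻¹ * (g' : ∀ n, Q n) i = 1
    rw [h, inv_mul_cancel]

theorem out_eq (n : ℕ) (g : (⊤ : Subgroup (∀ n, Q n))) (i : ℕ) (hi : i < n) :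
    ((Quotient.out (g : (⊤ : Subgroup (∀ n, Q n)) ⧸ F.V n) : (⊤ : Subgroup (∀ n, Q n))) :
      ∀ n, Q n) i = (g : ∀ n, Q n) i := by
  have h := (coset_eq F hF n (Quotient.out (g : (⊤ : Subgroup (∀ n, Q n)) ⧸ F.V n)) g).1
    (QuotientGroup.out_eq' _)
  exact h i hi

end

theorem t_PRODI : S_PRODI := by
  intro Q _ _ F hF
  classical
  constructor
  · rintro ⟨k, hk⟩
    refine ⟨k, fun n hn q => ?_⟩
    let x : (⊤ : Subgroup (∀ n, Q n)) := ⟨Pi.mulSingle n q, trivial⟩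
    have hx : x ∈ F.V k := by
      rw [hF]
      intro i hi
      exact Pi.mulSingle_eq_of_ne (by omega) q
    have h1 := (hk x hx (n + 1)).image
      (fun c => ((Quotient.out c : (⊤ : Subgroup (∀ n, Q n))) : ∀ n, Q n) n)
    refine h1.subset ?_
    rintro _ ⟨y, rfl⟩
    let Y : (⊤ : Subgroup (∀ n, Q n)) := ⟨Pi.mulSingle n y, trivial⟩
    have hY : Y ∈ F.V k := by
      rw [hF]
      intro i hi
      exact Pi.mulSingle_eq_of_ne (by omega) y
    refine ⟨_, ⟨Y, hY, rfl⟩, ?_⟩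
    have h2 := out_eq F hF (n + 1) (Y * x * Y⁻¹) n (Nat.lt_succ_self n)
    refine h2.trans ?_
    show (Pi.mulSingle n y : ∀ n, Q n) n * (Pi.mulSingle n q : ∀ n, Q n) n *
      ((Pi.mulSingle n y : ∀ n, Q n) n)⁻¹ = y * q * y⁻¹
    simp
  · rintro ⟨m, hm⟩
    refine ⟨m, fun x hx n => ?_⟩
    have hx' := (hF m x).1 hx
    have hfin : ∀ i : ℕ, {q : Q i | ∃ y : Q i, q = y * (x : ∀ n, Q n) i * y⁻¹}.Finite := by
      intro i
      by_cases hi : m ≤ i
      · exact hm i hi _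
      · refine (Set.finite_singleton (1 : Q i)).subset ?_
        rintro _ ⟨y, rfl⟩
        rw [hx' i (by omega)]
        simp
    let Φ : (⊤ : Subgroup (∀ n, Q n)) ⧸ F.V n → (∀ i : Fin n, Q i) :=
      fun c i => ((Quotient.out c : (⊤ : Subgroup (∀ n, Q n))) : ∀ n, Q n) i
    have hΦ : Function.Injective Φ := by
      intro c c' h
      rw [← QuotientGroup.out_eq' c, ← QuotientGroup.out_eq' c', coset_eq F hF]
      intro i hi
      exact congrFun h ⟨i, hi⟩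
    have hpi : (Set.pi Set.univ
        (fun i : Fin n => {q : Q i | ∃ y : Q i, q = y * (x : ∀ n, Q n) i * y⁻¹})).Finite :=
      Set.Finite.pi fun i => hfin i
    refine (hpi.preimage hΦ.injOn).subset ?_
    rintro _ ⟨y, hy, rfl⟩
    rw [Set.mem_preimage, Set.mem_univ_pi]
    intro i
    refine ⟨(y : ∀ n, Q n) i, ?_⟩
    exact out_eq F hF n (y * x * y⁻¹) i i.2

end Pool.Agent.Y540.HN
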